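import Mathlib
import Pool.Agent.H96ent.Zero

open Filter Topology

namespace Pool.Agent.Results.MP_3f0cb5_an.Jump

open Pool.Agent.H96ent

/-- The entropy function `h` satisfies `h 0 = 0` but `log 2 / 14 ≤ h θ` for `0 < θ ≤ 1 / 20`; hence
it is not continuous at `0`. -/
theorem result :
    h 0 = 0 ∧ (∀ θ : ℝ, 0 < θ → θ ≤ 1 / 20 → ((Real.log 2 / 14 : ℝ) : EReal) ≤ h θ) ∧
      ¬ ContinuousAt h 0 ∧ ¬ Continuous h := by
  have key : ¬ ContinuousAt h 0 := by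
    intro hc
    have hlog : 0 < Real.log 2 / 14 := by
      have := Real.log_pos one_lt_two
      positivity
    have h1 : ∀ᶠ θ in 𝓝 (0 : ℝ), h θ < ((Real.log 2 / 14 : ℝ) : EReal) := by
      apply hc.eventually_lt_const
      rw [h_zero]
      exact_mod_cast hlog
    have h2 : ∀ᶠ θ in 𝓝[>] (0 : ℝ), h θ < ((Real.log 2 / 14 : ℝ) : EReal) :=
      nhdsWithin_le_nhds h1
    have h3 : ∀ᶠ θ in 𝓝[>] (0 : ℝ), θ ∈ Set.Ioo (0 : ℝ) (1 / 20) :=
      Ioo_mem_nhdsGT (by norm_num)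
    obtain ⟨θ, ha, hb⟩ := (h2.and h3).exists
    exact absurd (lower_bound θ hb.1 hb.2.le) (not_le.2 ha)
  exact ⟨h_zero, fun θ h1 h2 => lower_bound θ h1 h2, key, fun hc => key hc.continuousAt⟩

end Pool.Agent.Results.MP_3f0cb5_an.Jump
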